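import Pool.Agent.MP_57f271_lc.H19.Wr

/-!
A nonzero sum of `k` products of powers of symmetric polynomials of low degree vanishes on few
lines `x = x₀`.
-/

open Polynomial Finset

namespace Pool.Agent.MP_57f271_lc.H19

section core

variable {ι : Type*} {e n k : ℕ} {F : ℂ[X][X]} {U L : ι → ℂ[X][X]}

/-- the reduced Wronskian matrix -/
noncomputable def PM (F : ℂ[X][X]) (L : Fin n → ℂ[X][X]) : Matrix (Fin n) (Fin n) ℂ[X][X] :=
  Matrix.of fun r c => PP F (L c) r

lemma PM_det (hL : ∀ i, F * derivative (U i) = U i * L i) (hF : F ≠ 0) (β : Fin n → ι)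
    (h : (Wr fun c => U (β c)).det ≠ 0) : (PM F fun c => L (β c)).det ≠ 0 := by
  intro h0
  have h1 := Matrix.det_mul_column (fun r : Fin n => F ^ r.1) (Wr fun c => U (β c))
  have h2 := Matrix.det_mul_row (fun c => U (β c)) (PM F fun c => L (β c))
  simp only [Wr, PM, Matrix.of_apply, PP_spec (hL _)] at h1 h2 h0 h
  rw [h2, h0, mul_zero] at h1
  exact mul_ne_zero (prod_ne_zero_iff.2 fun _ _ => pow_ne_zero _ hF) h h1.symm

lemma PM_mulVec (hL : ∀ i, F * derivative (U i) = U i * L i) (β : Fin n → ι) (p : Fin n → ℂ[X])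
    (q : ℂ[X]) (V : ℂ[X][X]) (h : C q * V = ∑ c, C (p c) * U (β c)) :
    (PM F fun c => L (β c)).mulVec (fun c => C (p c) * U (β c)) =
      fun r : Fin n => C q * (F ^ r.1 * derivative^[r] V) := by
  funext r
  have h1 := congrArg (fun P => F ^ r.1 * derivative^[r] P) h
  simp only [iterate_derivative_C_mul, iterate_derivative_sum, mul_sum] at h1
  rw [mul_left_comm, h1]
  simp only [PM, Matrix.mulVec, dotProduct, Matrix.of_apply]
  refine sum_congr rfl fun c _ => ?_
  rw [mul_left_comm (F ^ r.1), PP_spec (hL _)]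
  ring

/-- the ratio `p / q` has degree at most `B` -/
def Low (B : ℕ) (p q : ℂ[X]) : Prop :=
  ∃ a b : ℂ[X], b ≠ 0 ∧ a.natDegree ≤ B ∧ b.natDegree ≤ B ∧ p * b = q * a

/-- `V` is a combination of the `u c` with rational coefficients of degree at most `D` -/
def Rel (u : Fin n → ℂ[X][X]) (D : ℕ) (V : ℂ[X][X]) : Prop :=
  ∃ q : ℂ[X], q ≠ 0 ∧ q.natDegree ≤ D ∧ ∃ p : Fin n → ℂ[X], (∀ c, (p c).natDegree ≤ D) ∧
    C q * V = ∑ c, C (p c) * u c

lemma Rel.sum {u : Fin n → ℂ[X][X]} {D : ℕ} (c : ι → ℂ) (s : Finset ι)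
    (h : ∀ i, Rel u D (U i)) : Rel u (s.card * D) (∑ i ∈ s, C (C (c i)) * U i) := by
  classical
  induction s using Finset.induction_on with
  | empty => exact ⟨1, one_ne_zero, by simp, 0, by simp, by simp⟩
  | insert i s hi ih =>
    obtain ⟨q, hq, hq', p, hp, h1⟩ := ih
    obtain ⟨q1, hq1, hq1', p1, hp1, h2⟩ := h i
    rw [card_insert_of_notMem hi, add_mul, one_mul, sum_insert hi]
    refine ⟨q * q1, mul_ne_zero hq hq1, natDegree_mul_le_of_le hq' hq1',
      fun j => C (c i) * (q * p1 j) + p j * q1, fun j => natDegree_add_le_of_degree_le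
        ((natDegree_C_mul_le _ _).trans (natDegree_mul_le_of_le hq' (hp1 j)))
        (natDegree_mul_le_of_le (hp j) hq1'), ?_⟩
    have h3 := congrArg (C (C (c i)) * C q * ·) h2
    have h4 := congrArg (C q1 * ·) h1
    simp only [mul_sum _ _ (C (C (c i)) * C q), mul_sum univ _ (C q1)] at h3 h4
    simp only [C_add, C_mul, add_mul, sum_add_distrib, mul_comm (C (p _)) (C q1), mul_assoc] at *
    linear_combination h3 + h4

lemma rel_of_relation {B : ℕ} (hL : ∀ i, F * derivative (U i) = U i * L i) {T : ℂ[X][X] → Prop}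
    (hT : ∀ β : Fin n → ι, T (PM F fun c => L (β c)).det)
    (hr : ∀ i j D w p q, T D → T w → D ≠ 0 → q ≠ 0 → D * (C p * U i) = C q * U j * w → Low B p q)
    (β : Fin n → ι) (h0 : (PM F fun c => L (β c)).det ≠ 0) (i : ι) {q : ℂ[X]} (hq : q ≠ 0)
    (p : Fin n → ℂ[X]) (h : C q * U i = ∑ c, C (p c) * U (β c)) :
    Rel (fun c => U (β c)) (n * B) (U i) := by
  classical
  set M := PM F fun c => L (β c) with hM
  have h1 := PM_mulVec hL β p q _ h
  have h2 := M.mulVec_cramer fun r => PP F (L i) r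
  have h3 := Matrix.eq_zero_of_mulVec_eq_zero h0 (v := M.det • (fun c => C (p c) * U (β c)) -
    (C q * U i) • M.cramer fun r => PP F (L i) r) (by
      rw [Matrix.mulVec_sub, Matrix.mulVec_smul, Matrix.mulVec_smul, h1, h2]
      funext r
      simp only [PP_spec (hL _), Pi.sub_apply, Pi.smul_apply, smul_eq_mul, Pi.zero_apply]
      ring)
  have h4 : ∀ c, Low B (p c) q := fun c =>
    hr _ _ _ (M.cramer (fun r => PP F (L i) r) c) _ _ (hT β) (by
      rw [Matrix.cramer_apply]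
      convert hT (Function.update β c i) using 2
      ext r c' : 1
      by_cases hc : c' = c <;> simp [hc, hM, PM]) h0 hq
      (sub_eq_zero.1 (congrFun h3 c))
  choose a b hb ha hb' hab using h4
  refine ⟨∏ c, b c, prod_ne_zero_iff.2 fun c _ => hb c, ?_,
    fun c => a c * ∏ c' ∈ univ.erase c, b c', fun c => ?_, mul_left_cancel₀ (C_ne_zero.2 hq) ?_⟩
  · simpa using (natDegree_prod_le univ b).trans (sum_le_card_nsmul _ _ _ fun c _ => hb' c)
  · have h5 := (natDegree_prod_le (univ.erase c) b).trans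
      (sum_le_card_nsmul _ _ _ fun c _ => hb' c)
    refine (natDegree_mul_le_of_le (ha c) h5).trans (le_of_eq ?_)
    have := c.pos
    rw [card_erase_of_mem (mem_univ _), card_univ, Fintype.card_fin, smul_eq_mul]
    obtain ⟨m, rfl⟩ : ∃ m, n = m + 1 := ⟨n - 1, by omega⟩
    simp only [Nat.add_sub_cancel]
    ring
  · rw [mul_left_comm, h, mul_sum, mul_sum]
    refine sum_congr rfl fun c _ => ?_
    rw [← mul_prod_erase _ _ (mem_univ c), ← mul_assoc, ← mul_assoc, ← C_mul, ← C_mul]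
    congr 2
    linear_combination (∏ c' ∈ univ.erase c, b c') * hab c

theorem core [Fintype ι] {B : ℕ} (hL : ∀ i, F * derivative (U i) = U i * L i) (hF0 : F ≠ 0)
    (hk : Fintype.card ι ≤ k) {T : ℂ[X][X] → Prop}
    (hT : ∀ n ≤ k, ∀ β : Fin n → ι, T (PM F fun c => L (β c)).det)
    (hr : ∀ i j D w p q, T D → T w → D ≠ 0 → q ≠ 0 → D * (C p * U i) = C q * U j * w → Low B p q)
    (c : ι → ℂ) (hG : ∑ i, C (C (c i)) * U i ≠ 0) :
    ∃ j D Γ, T D ∧ D ≠ 0 ∧ Γ ≠ 0 ∧ Γ.natDegree ≤ k * (k * B) ∧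
      ∀ p : ℂ[X], C p ∣ ∑ i, C (C (c i)) * U i → C p ∣ D * (C Γ * U j) := by
  classical
  let Q : ℕ → Prop := fun n => ∃ β : Fin n → ι, (Wr fun c => U (β c)).det ≠ 0
  have hQ : ∀ n, Q n → n ≤ k := fun n ⟨β, hβ⟩ => by
    have : Function.Injective β := fun a b hab => by
      by_contra hne
      exact hβ (Matrix.det_zero_of_column_eq hne fun r => by simp [Wr, hab])
    exact le_trans (by simpa using Fintype.card_le_of_injective β this) hk
  obtain ⟨β, hβ⟩ : Q (Nat.findGreatest Q k) :=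
    Nat.findGreatest_spec k.zero_le ⟨Fin.elim0, by simp⟩
  have hmax : ¬Q (Nat.findGreatest Q k + 1) := fun h =>
    Nat.findGreatest_is_greatest (Nat.lt_succ_self _) (hQ _ h) h
  have hn : Nat.findGreatest Q k ≤ k := Nat.findGreatest_le k
  generalize Nat.findGreatest Q k = n at *
  have h0 := PM_det hL hF0 β hβ
  have h1 : ∀ i, Rel (fun c => U (β c)) (n * B) (U i) := fun i => by
    obtain ⟨q, hq, p, hp⟩ := relation (fun c => U (Fin.cons (α := fun _ => ι) i β c)) hβ
      (not_not.1 fun h => hmax ⟨_, h⟩)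
    exact rel_of_relation hL (hT n hn) hr β h0 i hq p hp
  obtain ⟨q, hq, -, p, hp, h2⟩ := Rel.sum c univ h1
  obtain ⟨j, hj⟩ : ∃ j, p j ≠ 0 := by
    by_contra! h
    simp [h, hq, hG] at h2
  have h3 := congrFun (congrArg (PM F fun c => L (β c)).adjugate.mulVec
    (PM_mulVec hL β p q _ h2)) j
  rw [Matrix.mulVec_mulVec, Matrix.adjugate_mul, Matrix.smul_mulVec, Matrix.one_mulVec] at h3
  refine ⟨β j, _, p j, hT n hn β, h0, hj,
    (hp j).trans (Nat.mul_le_mul hk (Nat.mul_le_mul_right _ hn)), fun a ⟨G, ha⟩ => ?_⟩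
  rw [ha, Pi.smul_apply, smul_eq_mul] at h3
  rw [h3, Matrix.mulVec, dotProduct]
  refine dvd_sum fun r _ => ?_
  rw [iterate_derivative_C_mul]
  exact (((dvd_mul_right _ _).mul_left _).mul_left _).mul_left _

end core

end Pool.Agent.MP_57f271_lc.H19
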