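import Mathlib

namespace Pool.Agent.MP_57f271_lc.H19

/-- algebraic decision trees over `ℂ` in the variables `σ` -/
inductive DT (σ : Type) : Type
  | leaf (b : Bool) : DT σ
  | node (g : MvPolynomial σ ℂ) (yes no : DT σ) : DT σ

namespace DT

variable {σ : Type}

/-- the tree answers yes on the input `z` -/
def Accepts (z : σ → ℂ) : DT σ → Prop
  | leaf b => b = true
  | node g yes no =>
    (MvPolynomial.eval z g = 0 ∧ yes.Accepts z) ∨ (MvPolynomial.eval z g ≠ 0 ∧ no.Accepts z)

/-- the largest number of tests on a path -/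
def depth : DT σ → ℕ
  | leaf _ => 0
  | node _ yes no => max yes.depth no.depth + 1

/-- every tested polynomial has the property `P` -/
def Tests (P : MvPolynomial σ ℂ → Prop) : DT σ → Prop
  | leaf _ => True
  | node g yes no => P g ∧ yes.Tests P ∧ no.Tests P

end DT

open MvPolynomial in
/-- `g` is a sum of `k` products of powers of `m` polynomials, each a sum of `t` products of
powers of `l` polynomials of degree at most `d` -/
def PowSum {σ : Type} (k m t l d : ℕ) (g : MvPolynomial σ ℂ) : Prop :=
  ∃ (f : Fin l → MvPolynomial σ ℂ) (b : Fin m → Fin t → Fin l → ℕ) (c' : Fin m → Fin t → ℂ)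
    (a : Fin k → Fin m → ℕ) (c : Fin k → ℂ), (∀ s, (f s).totalDegree ≤ d) ∧
      g = ∑ i, C (c i) * ∏ j, (∑ u, C (c' j u) * ∏ s, f s ^ b j u s) ^ a i j

end Pool.Agent.MP_57f271_lc.H19
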