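import Pool.Agent.MP_57f271_lc.H19.Core

/-!
Sums of symmetric power products with coefficients of low degree.
-/

open Polynomial Finset

namespace Pool.Agent.MP_57f271_lc.H19

open Bivariate

lemma eval_swap (P : ℂ[X][X]) (y : ℂ) : (swap P).eval (C y) = P.map (evalRingHom y) := by
  have : (evalRingHom (C y)).comp (swap (R := ℂ)).toRingEquiv.toRingHom =
      mapRingHom (evalRingHom y) := by
    refine ringHom_ext' (ringHom_ext' (RingHom.ext fun a => ?_) ?_) ?_
    · simp [swap_C]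
    · simp [swap_C]
    · simp [swap_Y]
  exact RingHom.congr_fun this P

lemma swap_eq {D w u v : ℂ[X][X]} {p q : ℂ[X]} (hu : swap u = u) (hv : swap v = v) (hu0 : u ≠ 0)
    (hv0 : v ≠ 0) (h : D * (C p * u) = C q * v * w) :
    C p * q.map C * (D * swap w) = C q * p.map C * (w * swap D) := by
  have h1 := congrArg swap h
  simp only [map_mul, swap_C, hu, hv] at h1
  refine mul_left_cancel₀ (mul_ne_zero hu0 hv0) ?_
  linear_combination q.map C * swap w * v * h - C q * w * v * h1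

lemma low_one {E : ℕ} {N M : ℂ[X][X]} {p q : ℂ[X]} (hq : q ≠ 0) (hM0 : M ≠ 0) (hM : Bd E M)
    (hN : Bd E N) (h : C p * q.map C * M = C q * p.map C * N) : Low E p q := by
  obtain ⟨y, h1, h2⟩ := ((eventually_cofinite_not_isRoot hq).and (ev_eval hM0)).exists
  have h6 := congrArg (eval (C y)) h
  simp only [eval_mul, eval_C, eval_map, eval₂_hom] at h6
  refine ⟨C (p.eval y) * N.eval (C y), C (q.eval y) * M.eval (C y),
    mul_ne_zero (C_ne_zero.2 h1) h2, (natDegree_C_mul_le _ _).trans (hN.eval_le y),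
    (natDegree_C_mul_le _ _).trans (hM.eval_le y), ?_⟩
  linear_combination h6

/-- symmetric polynomials whose logarithmic derivative has denominator `g` and degree `≤ e` -/
structure Hyp (g : ℂ[X][X]) (e : ℕ) (v : ℂ[X][X]) : Prop where
  symm : swap v = v
  line : ∀ x, v.map (evalRingHom x) = 0 → g.map (evalRingHom x) = 0
  log : ∃ L, Bd e L ∧ g * derivative v = v * L

variable {g : ℂ[X][X]} {e K : ℕ} {ι : Type*} {c V : ι → ℂ[X][X]}

lemma Hyp.ne_zero {v : ℂ[X][X]} (h : Hyp g e v) (hg : g ≠ 0) : v ≠ 0 := fun h0 => by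
  obtain ⟨x, hx⟩ := (ev_map hg).exists
  exact hx (h.line x (by simp [h0]))

/-- the degree bound for sums of `K` terms -/
def bnd (K e : ℕ) : ℕ := 8 * (K + 1) ^ 5 * e

theorem one_core (hg0 : g ≠ 0) (hg : Bd e g) (hc : ∀ i, Bd e (c i)) (hV : ∀ i, Hyp g e (V i))
    (s : Finset ι) (hs : s.card ≤ K) (hN : ∑ i ∈ s, c i * V i ≠ 0) :
    ∃ i ∈ s, ∃ H, H ≠ 0 ∧ Bd (bnd K e) (g * H) ∧
      ∀ p : ℂ[X], C p ∣ ∑ i ∈ s, c i * V i → C p ∣ H * V i := by
  classical
  choose L hL hL' using fun i => (hV i).log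
  set t := s.filter fun i => c i ≠ 0 with ht
  have ht0 : ∀ i : t, c i ≠ 0 := fun i => (mem_filter.1 i.2).2
  have htK : t.card ≤ K := (card_filter_le _ _).trans hs
  have hsum : ∑ i ∈ s, c i * V i = ∑ i : t, C (C 1) * (c i * V i) := by
    simp only [map_one, one_mul]
    rw [sum_coe_sort t fun i => c i * V i]
    exact (sum_filter_of_ne fun i _ h => left_ne_zero_of_mul h).symm
  have hP : ∀ u ⊆ t, Bd (K * e) (∏ i ∈ u, c i) := fun u hu =>
    (Bd.gr.prod' u c fun i _ => hc i).mono (Nat.mul_le_mul_right _ ((card_le_card hu).trans htK))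
  have hF := hg.mul (hP t subset_rfl)
  obtain ⟨j, D, Γ, hD, hD0, hΓ0, hΓ, h⟩ := core (F := g * ∏ i ∈ t, c i)
    (U := fun i : t => c i * V i) (k := K)
    (L := fun i : t => g * derivative (c i) * ∏ j ∈ t.erase i, c j + (∏ i ∈ t, c i) * L i)
    (B := K * (K * (e + (e + K * e))) + e + (K * (K * (e + (e + K * e))) + e))
    (T := Bd (K * (K * (e + (e + K * e)))))
    (fun i => by
      rw [derivative_mul, ← mul_prod_erase t c i.2]
      linear_combination c i * c i * (∏ j ∈ t.erase i, c j) * hL' i)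
    (mul_ne_zero hg0 (prod_ne_zero_iff.2 fun i hi => ht0 ⟨i, hi⟩)) (by simpa using htK)
    (fun n hn β => (Bd.gr.det _ fun r j => (Bd.gr.pp
      (fun a P hP => (hF.mul hP.deriv).mono (by omega)) (hF.deriv.mono (by omega))
      (Bd.gr.add (((hg.mul (hc _).deriv).mul (hP _ (erase_subset _ _))).mono (by omega))
        (((hP t subset_rfl).mul (hL _)).mono (by omega))) r).mono
          (Nat.mul_le_mul_right _ (r.2.le.trans hn))).mono (Nat.mul_le_mul_right _ hn))
    (fun i j D w p q hD hw hD0 hq h => by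
      by_cases hw0 : w = 0
      · refine ⟨0, 1, one_ne_zero, by simp, by simp, ?_⟩
        simpa [hw0, hD0, ht0 i, (hV i).ne_zero hg0] using h
      exact low_one hq (mul_ne_zero (mul_ne_zero hD0 (ht0 i))
        ((map_ne_zero_iff _ swap.injective).2 (mul_ne_zero hw0 (ht0 j))))
        ((hD.mul (hc i)).mul (hw.mul (hc j)).swap) ((hw.mul (hc j)).mul (hD.mul (hc i)).swap)
        (swap_eq (hV i).symm (hV j).symm ((hV i).ne_zero hg0) ((hV j).ne_zero hg0)
          (by linear_combination h)))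
    (fun _ => 1) (hsum ▸ hN)
  refine ⟨j, (mem_filter.1 j.2).1, D * (C Γ * c j),
    mul_ne_zero hD0 (mul_ne_zero (C_ne_zero.2 hΓ0) (ht0 j)),
    (hg.mul (hD.mul ((Bd.const hΓ).mul (hc j)))).mono ?_, fun p hp => ?_⟩
  · unfold bnd
    ring_nf
    omega
  · simpa only [mul_assoc] using h p (hsum ▸ hp)

/-- few lines and almost symmetric orders of vanishing -/
structure Nice (b : ℕ) (N : ℂ[X][X]) : Prop where
  card : ∀ A : Finset ℂ, (∀ x ∈ A, N.map (evalRingHom x) = 0) → A.card ≤ b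
  gap : ∀ x : ℂ, ∃ o, C (X - C x) ^ o ∣ swap N ∧ ¬C (X - C x) ^ (o + b + 1) ∣ N

lemma fin_mult (x : ℂ) {P : ℂ[X][X]} (h : P ≠ 0) : FiniteMultiplicity (C (X - C x)) P :=
  .of_prime_left (line_prime x) h

lemma gap (hg0 : g ≠ 0) (hg : Bd e g) (hc : ∀ i, Bd e (c i)) (hV : ∀ i, Hyp g e (V i)) (x : ℂ)
    (s : Finset ι) : s.card ≤ K → ∑ i ∈ s, c i * V i ≠ 0 →
      ∃ o, (∃ i ∈ s, o ≤ multiplicity (C (X - C x)) (V i)) ∧
        C (X - C x) ^ o ∣ swap (∑ i ∈ s, c i * V i) ∧
        ¬C (X - C x) ^ (o + s.card * bnd K e + 1) ∣ ∑ i ∈ s, c i * V i := by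
  classical
  have hV0 := fun i => (hV i).ne_zero hg0
  induction s using Finset.induction_on_max_value
    (fun i => multiplicity (C (X - C x)) (V i)) with
  | empty => simp
  | insert a s ha hmax ih =>
    intro hs hN
    obtain ⟨i, hi, H, hH0, hH, h1⟩ := one_core hg0 hg hc hV _ hs hN
    have h2 : ∀ M, C (X - C x) ^ M ∣ ∑ i ∈ insert a s, c i * V i →
        M ≤ multiplicity (C (X - C x)) (V a) + bnd K e := fun M hM => by
      have h3 := h1 ((X - C x) ^ M) (by rwa [C_pow])
      have h4 := fin_mult x (mul_ne_zero hH0 (hV0 i))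
      rw [C_pow, h4.pow_dvd_iff_le_multiplicity, multiplicity_mul (line_prime x) h4] at h3
      have h5 := hH.pow_le (x := x) (mul_ne_zero hg0 hH0) ((pow_multiplicity_dvd _ H).mul_left g)
      have h6 : multiplicity (C (X - C x)) (V i) ≤ multiplicity (C (X - C x)) (V a) := by
        rcases mem_insert.1 hi with rfl | hi
        · rfl
        · exact hmax i hi
      omega
    have h3 : ∀ o ≤ multiplicity (C (X - C x)) (V a), C (X - C x) ^ o ∣ V a := fun o ho =>
      (pow_dvd_pow _ ho).trans (pow_multiplicity_dvd _ _)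
    rw [card_insert_of_notMem ha] at hs ⊢
    rw [sum_insert ha] at h2 ⊢
    rw [map_add, map_mul, (hV a).symm, add_mul, one_mul]
    by_cases h0 : ∑ i ∈ s, c i * V i = 0
    · refine ⟨_, ⟨a, mem_insert_self _ _, le_rfl⟩, ?_, fun h => by have := h2 _ h; omega⟩
      rw [h0, map_zero, add_zero]
      exact (h3 _ le_rfl).mul_left _
    obtain ⟨o, ⟨j, hj, hj'⟩, h4, h5⟩ := ih (by omega) h0
    have h6 := hj'.trans (hmax j hj)
    refine ⟨o, ⟨a, mem_insert_self _ _, h6⟩, dvd_add ((h3 _ h6).mul_left _) h4, fun h => h5 ?_⟩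
    have h7 := h2 _ h
    exact (dvd_add_right ((h3 _ (by omega)).mul_left _)).1 ((pow_dvd_pow _ (by omega)).trans h)

theorem nice (hg0 : g ≠ 0) (hg : Bd e g) (hc : ∀ i, Bd e (c i)) (hV : ∀ i, Hyp g e (V i))
    (s : Finset ι) (hN : ∑ i ∈ s, c i * V i ≠ 0) :
    Nice (s.card * bnd s.card e) (∑ i ∈ s, c i * V i) where
  card A hA := by
    obtain ⟨i, hi, H, hH0, hH, h1⟩ := one_core hg0 hg hc hV s le_rfl hN
    refine (hH.card_le (mul_ne_zero hg0 hH0) A fun x hx => ?_).trans
      (Nat.le_mul_of_pos_left _ (card_pos.2 ⟨i, hi⟩))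
    have h2 := line_iff.1 (h1 _ (line_iff.2 (hA x hx)))
    rw [Polynomial.map_mul, mul_eq_zero] at h2 ⊢
    exact h2.symm.imp_left ((hV i).line x)
  gap x := by
    obtain ⟨o, -, h⟩ := gap hg0 hg hc hV x s le_rfl hN
    exact ⟨o, h⟩

lemma Nice.deg_le {b : ℕ} {N : ℂ[X][X]} (h : Nice b N) {p q : ℂ[X]} (hp : p ≠ 0)
    (hpq : IsCoprime p q) (h1 : C p * q.map C * swap N = C q * p.map C * N) :
    p.natDegree ≤ b * b := by
  classical
  have h2 : ∀ x ∈ p.roots.toFinset, ∀ o, C (X - C x) ^ o ∣ swap N →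
      C (X - C x) ^ (p.roots.count x + o) ∣ N := fun x hx o ho => by
    have hx' : p.IsRoot x := (mem_roots hp).1 (Multiset.mem_toFinset.1 hx)
    refine (line_prime x).pow_dvd_of_dvd_mul_left _ (a := C q * p.map C) (fun h => ?_) ?_
    · rw [line_iff, Polynomial.map_mul, map_C, Polynomial.map_map, mul_eq_zero] at h
      rcases h with h | h
      · obtain ⟨a, b, hab⟩ := hpq
        have := congrArg (eval x) hab
        simp [hx'.eq_zero, show q.eval x = 0 by simpa using h] at this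
      · exact hp (by simpa [show (evalRingHom x).comp C = RingHom.id ℂ by ext; simp] using h)
    · rw [← h1, pow_add, count_roots, ← C_pow]
      exact mul_dvd_mul ((_root_.map_dvd C (pow_rootMultiplicity_dvd p x)).mul_right _) ho
  rw [← IsAlgClosed.card_roots_eq_natDegree, ← Multiset.toFinset_sum_count_eq]
  refine (sum_le_card_nsmul _ _ b fun x hx => ?_).trans
    (Nat.mul_le_mul_right _ (h.card _ fun x hx => line_iff.1 ?_))
  · obtain ⟨o, h3, h4⟩ := h.gap x
    by_contra h5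
    exact h4 ((pow_dvd_pow _ (by omega)).trans (h2 x hx o h3))
  · exact (dvd_pow_self _ (by simpa [and_comm] using hx)).trans (h2 x hx 0 (by simp))

lemma low_two {b : ℕ} {N : ℂ[X][X]} (h : Nice b N) (h' : Nice b (swap N))
    {p q : ℂ[X]} (hq : q ≠ 0) (h1 : C p * q.map C * swap N = C q * p.map C * N) :
    Low (b * b) p q := by
  classical
  by_cases hp : p = 0
  · exact ⟨0, 1, one_ne_zero, by simp, by simp, by simp [hp]⟩
  obtain ⟨p', q', hp', hq', hc⟩ := extract_gcd p q
  generalize gcd p q = d at hp' hq'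
  subst hp' hq'
  have hc' : IsCoprime p' q' := (gcd_isUnit_iff _ _).1 hc
  have hd := left_ne_zero_of_mul hq
  have h2 : C p' * q'.map C * swap N = C q' * p'.map C * N := by
    refine mul_left_cancel₀ (mul_ne_zero (C_ne_zero.2 hd)
      ((Polynomial.map_ne_zero_iff C_injective).2 hd)) ?_
    simp only [C_mul, Polynomial.map_mul] at h1
    linear_combination h1
  exact ⟨p', q', right_ne_zero_of_mul hq, h.deg_le (right_ne_zero_of_mul hp) hc' h2,
    h'.deg_le (right_ne_zero_of_mul hq) hc'.symm (by rw [swap_swap_apply, h2]), by ring⟩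

end Pool.Agent.MP_57f271_lc.H19
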