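import Pool.Agent.MP_57f271_lc.H19.Two
import Pool.Agent.MP_57f271_lc.H19.Defs

/-!
The generic path of a decision tree on a symmetric two-parameter family of inputs.
-/

open Polynomial Finset Pointwise

namespace Pool.Agent.MP_57f271_lc.H19

open Bivariate Classical

variable {σ : Type}

lemma drop_zero {J : Type*} [Fintype J] (f : J → ℂ[X][X]) (a : J → ℕ) (c : ℂ) :
    ∃ c' : ℂ, C (C c) * ∏ j, f j ^ a j = C (C c') * ∏ j, (if f j = 0 then 1 else f j) ^ a j := by
  by_cases h : ∃ j, f j = 0 ∧ a j ≠ 0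
  · obtain ⟨j, h1, h2⟩ := h
    exact ⟨0, by rw [prod_eq_zero (mem_univ j) (by simp [h1, h2])]; simp⟩
  · push Not at h
    refine ⟨c, congrArg _ (prod_congr rfl fun j _ => ?_)⟩
    split_ifs with h0
    · simp [h j h0]
    · rfl

lemma aeval_bd {φ : σ → ℂ[X][X]} (hφ : ∀ s, Bd 1 (φ s)) (f : MvPolynomial σ ℂ) :
    Bd f.totalDegree (MvPolynomial.aeval φ f) := by
  rw [MvPolynomial.aeval_def, MvPolynomial.eval₂_eq]
  refine Bd.gr.sum _ _ fun μ hμ => ((Bd.gr.const _).mul (Bd.gr.prod _ _ μ fun s _ => ?_)).mono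
    (by rw [zero_add]; exact MvPolynomial.le_totalDegree hμ)
  simpa using Bd.gr.prod' (range (μ s)) (fun _ => φ s) fun _ _ => hφ s

lemma test_card {φ : σ → ℂ[X][X]} (hφ : ∀ s, Bd 1 (φ s)) (hs : ∀ s, swap (φ s) = φ s)
    {k m t l d : ℕ} {g : MvPolynomial σ ℂ} (hg : PowSum k m t l d g)
    (h0 : MvPolynomial.aeval φ g ≠ 0) (A : Finset ℂ)
    (hA : ∀ x ∈ A, (MvPolynomial.aeval φ g).map (evalRingHom x) = 0) :
    A.card ≤ (m * t + l * d + 2) ^ (37 * (k ^ 2 * (m + 1))) := by
  obtain ⟨f, b, c', a, c, hf, rfl⟩ := hg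
  have hsw : ∀ p, swap (MvPolynomial.aeval φ p) = MvPolynomial.aeval φ p := fun p => by
    rw [← AlgHom.coe_coe swap, ← AlgHom.comp_apply, MvPolynomial.comp_aeval]
    simp [hs]
  set f' : Fin l → ℂ[X][X] := fun s =>
    if MvPolynomial.aeval φ (f s) = 0 then 1 else MvPolynomial.aeval φ (f s) with hf'
  have hf0 : ∀ s, f' s ≠ 0 := fun s => by simp only [hf']; split_ifs <;> simp [*]
  have hf1 : ∀ s, Bd d (f' s) := fun s => by
    simp only [hf']
    split_ifs
    exacts [Bd.gr.one, (aeval_bd hφ _).mono (hf s)]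
  have hf2 : ∀ s, swap (f' s) = f' s := fun s => by simp only [hf']; split_ifs <;> simp [hsw]
  set B := insert 1 (univ.image fun p : Fin m × Fin t => ∏ s, f' s ^ b p.1 p.2 s) with hB
  have hB1 : ∀ v ∈ B, Hyp (∏ s, f' s) (l * d) v := by
    simp only [hB, mem_insert, mem_image, mem_univ, true_and]
    rintro v (rfl | ⟨p, rfl⟩)
    · exact Hyp.one
    refine ⟨by simp only [map_prod, map_pow, hf2], fun x hx => ?_, ?_⟩
    · simp only [Polynomial.map_prod, Polynomial.map_pow, prod_eq_zero_iff, pow_eq_zero_iff']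
        at hx ⊢
      exact hx.imp fun s h => ⟨h.1, h.2.1⟩
    · simpa using Bd.gr.exists_L (ε := 0) (g := 1) f' hf1 (fun s => by simpa using (hf1 s).deriv)
        (b p.1 p.2) univ
  set F : Fin m → ℂ[X][X] := fun j => MvPolynomial.aeval φ
    (∑ u, MvPolynomial.C (c' j u) * ∏ s, f s ^ b j u s) with hF
  have gr := Sm.gr (e := l * d) (mem_insert_self 1 _ : 1 ∈ B)
  have hF1 : ∀ j, Sm B (l * d) 1 (F j) := fun j => by
    simp only [hF, map_sum, map_mul, map_prod, map_pow, MvPolynomial.aeval_C]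
    refine gr.sum _ _ fun u _ => ?_
    obtain ⟨c'', h⟩ := drop_zero (fun s => MvPolynomial.aeval φ (f s)) (b j u) (c' j u)
    refine (show _ = _ from h) ▸ Sm.gen ((Bd.gr.const _).mono (by simp)) ?_
    rw [pow_one]
    exact mem_insert_of_mem (mem_image.2 ⟨(j, u), mem_univ _, rfl⟩)
  choose c'' hc using fun i => drop_zero F (a i) (c i)
  have hG : MvPolynomial.aeval φ (∑ i, MvPolynomial.C (c i) *
      ∏ j, (∑ u, MvPolynomial.C (c' j u) * ∏ s, f s ^ b j u s) ^ a i j) =
      ∑ i, C (C (c'' i)) * ∏ j, (if F j = 0 then 1 else F j) ^ a i j := by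
    rw [map_sum]
    refine sum_congr rfl fun i _ => ?_
    rw [← hc, map_mul, map_prod, MvPolynomial.aeval_C]
    simp only [map_pow]
    rfl
  rw [hG] at h0 hA
  have hc : B.card ≤ m * t + 1 := (card_insert_le _ _).trans (Nat.succ_le_succ (card_image_le.trans (by simp)))
  simpa using two_core (B := B) (mem_insert_self 1 _) hB1 (prod_ne_zero_iff.2 fun s _ => hf0 s)
    (by simpa using Bd.gr.prod' univ f' fun s _ => hf1 s)
    (fun j => by split_ifs; exacts [gr.one, hF1 j]) (fun j => by split_ifs with h; exacts [one_ne_zero, h])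
    (fun j => by split_ifs; exacts [map_one _, hsw _]) a c'' h0
    (M := m * t + l * d + 2) (by omega) (by omega) A hA

lemma generic {φ : σ → ℂ[X][X]} {P : MvPolynomial σ ℂ → Prop} {N : ℕ}
    (h : ∀ g, P g → MvPolynomial.aeval φ g ≠ 0 → ∀ A : Finset ℂ,
      (∀ x ∈ A, (MvPolynomial.aeval φ g).map (evalRingHom x) = 0) → A.card ≤ N)
    (T : DT σ) (hT : T.Tests P) : ∃ (b : Prop) (A : Finset ℂ), A.card ≤ T.depth * N ∧
      ∀ x ∉ A, ∀ᶠ y in Filter.cofinite,
        (T.Accepts (fun s => ((φ s).map (evalRingHom x)).eval y) ↔ b) := by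
  have ev : ∀ g x y, MvPolynomial.eval (fun s => ((φ s).map (evalRingHom x)).eval y) g =
      ((MvPolynomial.aeval φ g).map (evalRingHom x)).eval y := fun g x y => by
    induction g using MvPolynomial.induction_on <;> simp [*]
  induction T with
  | leaf b => exact ⟨b = true, ∅, by simp, fun _ _ => .of_forall fun _ => Iff.rfl⟩
  | node g yes no ih1 ih2 =>
    obtain ⟨hg, h1, h2⟩ := hT
    by_cases h0 : MvPolynomial.aeval φ g = 0
    · obtain ⟨b, A, h3, h4⟩ := ih1 h1
      refine ⟨b, A, h3.trans (Nat.mul_le_mul_right _ ((le_max_left _ _).trans (Nat.le_succ _))),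
        fun x hx => (h4 x hx).mono fun y hy => ?_⟩
      simp [DT.Accepts, ev, h0, hy]
    · obtain ⟨b, A, h3, h4⟩ := ih2 h2
      have hfin := Filter.eventually_cofinite.1 (ev_map h0)
      refine ⟨b, A ∪ hfin.toFinset, (card_union_le _ _).trans ?_, fun x hx => ?_⟩
      · rw [DT.depth, add_mul, one_mul]
        exact add_le_add (h3.trans (Nat.mul_le_mul_right _ (le_max_right _ _)))
          (h g hg h0 _ fun x hx => by simpa using hx)
      · simp only [mem_union, Set.Finite.mem_toFinset, Set.mem_ofPred_eq, not_or, not_not] at hx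
        filter_upwards [h4 x hx.1, eventually_cofinite_not_isRoot hx.2] with y hy hy'
        simp [DT.Accepts, ev, show eval y _ ≠ 0 from hy', hy]

end Pool.Agent.MP_57f271_lc.H19
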