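import Pool.Agent.MP_57f271_lc.H19.One

/-!
Sums of power products of sums of power products.
-/

open Polynomial Finset Pointwise

namespace Pool.Agent.MP_57f271_lc.H19

open Bivariate Classical

variable {g : ℂ[X][X]} {e : ℕ} {B : Finset ℂ[X][X]}

lemma Hyp.one : Hyp g e 1 := ⟨map_one _, by simp, 0, Bd.gr.zero, by simp⟩

lemma Hyp.mul {u v : ℂ[X][X]} (hu : Hyp g e u) (hv : Hyp g e v) : Hyp g e (u * v) where
  symm := by rw [map_mul, hu.symm, hv.symm]
  line x h := by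
    rw [Polynomial.map_mul, mul_eq_zero] at h
    exact h.elim (hu.line x) (hv.line x)
  log := by
    obtain ⟨L, h1, h2⟩ := hu.log
    obtain ⟨L', h3, h4⟩ := hv.log
    exact ⟨L + L', Bd.gr.add h1 h3, by rw [derivative_mul]; linear_combination v * h2 + u * h4⟩

lemma Hyp.of_mem (hB : ∀ v ∈ B, Hyp g e v) (r : ℕ) : ∀ v ∈ B ^ r, Hyp g e v := by
  induction r with
  | zero => simpa using Hyp.one
  | succ r ih =>
    intro v hv
    rw [pow_succ, mem_mul] at hv
    obtain ⟨a, ha, b, hb, rfl⟩ := hv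
    exact (ih a ha).mul (hB b hb)

/-- combinations of products of `r` members of `B` with coefficients of low degree -/
def Sm (B : Finset ℂ[X][X]) (e r : ℕ) (P : ℂ[X][X]) : Prop :=
  P ∈ AddSubmonoid.closure {w | ∃ c v, Bd (r * e) c ∧ v ∈ B ^ r ∧ w = c * v}

lemma Sm.gen {r : ℕ} {c v : ℂ[X][X]} (hc : Bd (r * e) c) (hv : v ∈ B ^ r) : Sm B e r (c * v) :=
  AddSubmonoid.subset_closure ⟨c, v, hc, hv, rfl⟩

lemma Sm.zero {r : ℕ} : Sm B e r 0 := zero_mem _

lemma Sm.add {r : ℕ} {P Q : ℂ[X][X]} (h : Sm B e r P) (h' : Sm B e r Q) : Sm B e r (P + Q) :=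
  add_mem h h'

lemma Sm.ind {r : ℕ} {p : ℂ[X][X] → Prop} {P : ℂ[X][X]} (h : Sm B e r P)
    (h1 : ∀ c v, Bd (r * e) c → v ∈ B ^ r → p (c * v)) (h0 : p 0)
    (h2 : ∀ a b, p a → p b → p (a + b)) : p P :=
  AddSubmonoid.closure_induction (fun _ ⟨c, v, hc, hv, h⟩ => h ▸ h1 c v hc hv) h0
    (fun a b _ _ => h2 a b) h

lemma Sm.gr (h1 : 1 ∈ B) : Graded (Sm B e) where
  mono h hab := h.ind (fun _ _ hc hv => Sm.gen (hc.mono (Nat.mul_le_mul_right _ hab))
    (pow_subset_pow_right h1 hab hv)) Sm.zero fun _ _ => Sm.add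
  const a := by
    simpa using Sm.gen (B := B) (r := 0) (v := 1) ((Bd.gr.const a).mono (by simp)) (by simp)
  add := Sm.add
  mul {a b P Q} hP hQ := by
    refine hP.ind (p := fun P => Sm B e (a + b) (P * Q)) (fun c v hc hv => ?_)
      (by simpa using Sm.zero) fun _ _ h h' => by simpa only [add_mul] using h.add h'
    refine hQ.ind (p := fun Q => Sm B e (a + b) (c * v * Q)) (fun c' v' hc' hv' => ?_)
      (by simpa using Sm.zero) fun _ _ h h' => by simpa only [mul_add] using h.add h'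
    rw [mul_mul_mul_comm]
    exact Sm.gen (add_mul a b e ▸ hc.mul hc') (pow_add B a b ▸ mul_mem_mul hv hv')

lemma Sm.of_bd (h1 : 1 ∈ B) {c : ℂ[X][X]} (hc : Bd e c) : Sm B e 1 c := by
  simpa using Sm.gen (B := B) (r := 1) (v := 1) (by simpa using hc) (by simpa using h1)

lemma Sm.deriv (h1 : 1 ∈ B) (hB : ∀ v ∈ B, Hyp g e v) (hg : Bd e g) {r : ℕ} {P : ℂ[X][X]}
    (h : Sm B e r P) : Sm B e (1 + r) (g * derivative P) := by
  refine h.ind (p := fun P => Sm B e (1 + r) (g * derivative P)) (fun c v hc hv => ?_)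
    (by simpa using Sm.zero) fun _ _ h h' => by
      simpa only [derivative_add, mul_add] using h.add h'
  obtain ⟨L, h2, h3⟩ := (Hyp.of_mem hB r v hv).log
  have : g * derivative (c * v) = (g * derivative c + L * c) * v := by
    rw [derivative_mul]; linear_combination c * h3
  rw [this]
  refine Sm.gen ?_ (pow_subset_pow_right h1 (by omega) hv)
  rw [add_mul, one_mul]
  exact Bd.gr.add (hg.mul hc.deriv) (h2.mul hc)

lemma Sm.swap (hB : ∀ v ∈ B, Hyp g e v) {r : ℕ} {P : ℂ[X][X]} (h : Sm B e r P) :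
    Sm B e r (swap P) := by
  refine h.ind (p := fun P => Sm B e r (Bivariate.swap P)) (fun c v hc hv => ?_)
    (by simpa using Sm.zero) fun _ _ h h' => by simpa only [map_add] using h.add h'
  rw [map_mul, (Hyp.of_mem hB r v hv).symm]
  exact Sm.gen hc.swap hv

lemma Nice.mono {a b : ℕ} {N : ℂ[X][X]} (h : Nice a N) (hab : a ≤ b) : Nice b N where
  card A hA := (h.card A hA).trans hab
  gap x := by
    obtain ⟨o, h1, h2⟩ := h.gap x
    exact ⟨o, h1, fun h3 => h2 ((pow_dvd_pow _ (by omega)).trans h3)⟩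

lemma Sm.nice (hB : ∀ v ∈ B, Hyp g e v) (hg0 : g ≠ 0) (hg : Bd e g) {r : ℕ} (hr : 1 ≤ r)
    {P : ℂ[X][X]} (h : Sm B e r P) (h0 : P ≠ 0) :
    Nice (B.card ^ r * bnd (B.card ^ r) (r * e)) P := by
  obtain ⟨c, hc, rfl⟩ : ∃ c : ↥(B ^ r) → ℂ[X][X], (∀ v, Bd (r * e) (c v)) ∧ P = ∑ v, c v * v := by
    refine h.ind (p := fun P => ∃ c : ↥(B ^ r) → ℂ[X][X], (∀ v, Bd (r * e) (c v)) ∧
      P = ∑ v, c v * v) (fun c v hc hv => ⟨Pi.single ⟨v, hv⟩ c, fun w => ?_, ?_⟩)
      ⟨0, fun _ => Bd.gr.zero, by simp⟩ fun _ _ ⟨c, hc, h⟩ ⟨c', hc', h'⟩ =>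
        ⟨c + c', fun v => Bd.gr.add (hc v) (hc' v), by simp [h, h', add_mul, sum_add_distrib]⟩
    · rw [Pi.single_apply]
      split_ifs
      · exact hc
      · exact Bd.gr.zero
    · simp [Pi.single_apply, ite_mul]
  have he : e ≤ r * e := Nat.le_mul_of_pos_left _ hr
  refine (H19.nice hg0 (hg.mono he) hc (fun v => ?_) univ h0).mono ?_
  · obtain ⟨h1, h2, L, h3, h4⟩ := Hyp.of_mem hB r v v.2
    exact ⟨h1, h2, L, h3.mono he, h4⟩
  · have : (univ : Finset ↥(B ^ r)).card ≤ B.card ^ r := by simpa using card_pow_le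
    unfold bnd
    gcongr

theorem two_core {ι J : Type*} [Fintype ι] [Fintype J] (h1 : 1 ∈ B) (hB : ∀ v ∈ B, Hyp g e v)
    (hg0 : g ≠ 0) (hg : Bd e g) {F : J → ℂ[X][X]} (hF : ∀ j, Sm B e 1 (F j))
    (hF0 : ∀ j, F j ≠ 0) (hFs : ∀ j, swap (F j) = F j) (a : ι → J → ℕ) (c : ι → ℂ)
    (hG : ∑ i, C (C (c i)) * ∏ j, F j ^ a i j ≠ 0) {M : ℕ} (hM : B.card < M) (hM' : e ≤ M)
    (A : Finset ℂ)
    (hA : ∀ x ∈ A, (∑ i, C (C (c i)) * ∏ j, F j ^ a i j).map (evalRingHom x) = 0) :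
    A.card ≤ M ^ (37 * (Fintype.card ι ^ 2 * (Fintype.card J + 1))) := by
  set k := Fintype.card ι with hk
  set m := Fintype.card J with hm
  set R := k * (k * (1 + m)) with hR
  have gr := Sm.gr (e := e) h1
  have hk1 : 1 ≤ k := by
    obtain ⟨i, -, -⟩ := exists_ne_zero_of_sum_ne_zero hG
    exact Fintype.card_pos_iff.2 ⟨i⟩
  have hR1 : 1 + m ≤ R := (Nat.le_mul_of_pos_left _ hk1).trans (Nat.le_mul_of_pos_left _ hk1)
  have hP : Sm B e m (∏ j, F j) := by simpa using gr.prod' univ F fun j _ => hF j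
  have hP0 : ∏ j, F j ≠ 0 := prod_ne_zero_iff.2 fun j _ => hF0 j
  have hU0 : ∀ i, ∏ j, F j ^ a i j ≠ 0 := fun i =>
    prod_ne_zero_iff.2 fun j _ => pow_ne_zero _ (hF0 j)
  have hU : ∀ i, swap (∏ j, F j ^ a i j) = ∏ j, F j ^ a i j := fun i => by
    simp only [map_prod, map_pow, hFs]
  choose L hL hL' using fun i => gr.exists_L F hF (fun j => (hF j).deriv h1 hB hg) (a i) univ
  simp only [card_univ, mul_one, ← hm] at hL
  have hn : ∀ P, Sm B e (R + R) P → P ≠ 0 → Nice _ P := fun P => Sm.nice hB hg0 hg (by omega)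
  set b := B.card ^ (R + R) * bnd (B.card ^ (R + R)) ((R + R) * e) with hb
  obtain ⟨j, D, Γ, hD, hD0, hΓ0, hΓ, h⟩ := core (B := b * b) (T := Sm B e R) hL'
    (mul_ne_zero hg0 hP0) hk.ge
    (fun n hn β => gr.mono (gr.det _ fun r j => gr.mono (gr.pp
      (fun a P hP' => by
        rw [mul_right_comm]
        exact gr.mono (gr.mul (hP'.deriv h1 hB hg) hP) (by omega))
      (by
        rw [derivative_mul]
        exact gr.add (gr.mul (Sm.of_bd h1 hg.deriv) hP) (hP.deriv h1 hB hg)) (hL _) r)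
          (Nat.mul_le_mul_right _ (r.2.le.trans hn))) (Nat.mul_le_mul_right _ hn))
    (fun i j D w p q hD hw hD0 hq h => by
      by_cases hw0 : w = 0
      · refine ⟨0, 1, one_ne_zero, by simp, by simp, ?_⟩
        simpa [hw0, hD0, hU0 i] using h
      have h2 := gr.mul hw (hD.swap hB)
      have h3 := mul_ne_zero hw0 ((map_ne_zero_iff _ swap.injective).2 hD0)
      refine low_two (hn _ h2 h3) (hn _ (h2.swap hB) ((map_ne_zero_iff _ swap.injective).2 h3))
        hq ?_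
      rw [← swap_eq (hU i) (hU j) (hU0 i) (hU0 j) h, map_mul, swap_swap_apply, mul_comm D])
    c hG
  have h2 : A ⊆ (A.filter fun x => (D * ∏ j, F j).map (evalRingHom x) = 0) ∪
      A.filter fun x => (C Γ).map (evalRingHom x) = 0 := fun x hx => by
    have h3 := line_iff.1 (h _ (line_iff.2 (hA x hx)))
    simp only [Polynomial.map_mul, Polynomial.map_prod, Polynomial.map_pow, mul_eq_zero,
      prod_eq_zero_iff, pow_eq_zero_iff', mem_union, mem_filter] at h3 ⊢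
    rcases h3 with h3 | h3 | ⟨j, hj, h3, -⟩
    exacts [.inl ⟨hx, .inl h3⟩, .inr ⟨hx, h3⟩, .inl ⟨hx, .inr ⟨j, hj, h3⟩⟩]
  have h3 := ((card_le_card h2).trans (card_union_le _ _)).trans (add_le_add
    ((hn _ (gr.mono (gr.mul hD hP) (by omega)) (mul_ne_zero hD0 hP0)).card _
      fun x hx => (mem_filter.1 hx).2)
    ((Bd.const hΓ).card_le (C_ne_zero.2 hΓ0) _ fun x hx => (mem_filter.1 hx).2))
  have hM2 : 2 ≤ M := Nat.lt_of_le_of_lt (card_pos.2 ⟨1, h1⟩) hM
  have h4 : R + 1 ≤ M ^ R := Nat.lt_two_pow_self.trans_le (Nat.pow_le_pow_left hM2 _)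
  have h5 : e ≤ M ^ R := hM'.trans (Nat.le_self_pow (by omega) _)
  have h6 : B.card ^ (R + R) + 1 ≤ (M ^ R) ^ 2 := by
    rw [← pow_mul, mul_two]; exact Nat.pow_lt_pow_left hM (by omega)
  have h7 : k * k ≤ R := Nat.mul_le_mul_left _ (Nat.le_mul_of_pos_right _ (by omega))
  rw [show 37 * (k ^ 2 * (m + 1)) = R * 37 by rw [hR]; ring, pow_mul]
  generalize M ^ R = W at *
  have h8 : 2 ≤ W := by omega
  have h9 : b ≤ W ^ 18 :=
    calc b ≤ W ^ 2 * (8 * (W ^ 2) ^ 5 * ((W + W) * W)) :=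
          Nat.mul_le_mul (by omega) (Nat.mul_le_mul (by gcongr) (Nat.mul_le_mul (by omega) h5))
      _ = 2 ^ 4 * W ^ 14 := by ring
      _ ≤ W ^ 4 * W ^ 14 := by gcongr
      _ = _ := by ring
  calc A.card ≤ b + k * k * (b * b) := by rwa [mul_assoc k]
    _ ≤ W ^ 36 + R * (W ^ 18 * W ^ 18) := by
      gcongr
      exact h9.trans (Nat.pow_le_pow_right (by omega) (by omega))
    _ = (R + 1) * W ^ 36 := by ring
    _ ≤ W * W ^ 36 := by gcongr
    _ = _ := by ring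

end Pool.Agent.MP_57f271_lc.H19
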