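import Mathlib

/-!
Wronskians of products of powers of symmetric bivariate polynomials.
-/

open Polynomial Finset

namespace Pool.Agent.MP_57f271_lc.H19

/-- a filtration of the ring of bivariate polynomials -/
structure Graded (G : ℕ → ℂ[X][X] → Prop) : Prop where
  mono : ∀ {a b P}, G a P → a ≤ b → G b P
  const : ∀ a : ℂ, G 0 (C (C a))
  add : ∀ {a P Q}, G a P → G a Q → G a (P + Q)
  mul : ∀ {a b P Q}, G a P → G b Q → G (a + b) (P * Q)

namespace Graded

variable {G : ℕ → ℂ[X][X] → Prop} (hG : Graded G) {e : ℕ} {P Q : ℂ[X][X]}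
include hG

lemma zero : G e 0 := hG.mono (by simpa using hG.const 0) e.zero_le

lemma one : G e 1 := hG.mono (by simpa using hG.const 1) e.zero_le

lemma cast_mul (a : ℤ) (h : G e P) : G e (a * P) := by simpa using hG.mul (hG.const a) h

lemma sub (h : G e P) (h' : G e Q) : G e (P - Q) := by
  convert hG.add h (hG.cast_mul (-1) h') using 1
  push_cast
  ring

lemma sum {ι : Type*} (s : Finset ι) (f : ι → ℂ[X][X]) (h : ∀ i ∈ s, G e (f i)) :
    G e (∑ i ∈ s, f i) :=
  sum_induction f (G e) (fun _ _ => hG.add) hG.zero h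

lemma prod {ι : Type*} (s : Finset ι) (f : ι → ℂ[X][X]) (g : ι → ℕ) (h : ∀ i ∈ s, G (g i) (f i)) :
    G (∑ i ∈ s, g i) (∏ i ∈ s, f i) := by
  classical
  induction s using Finset.induction_on with
  | empty => simpa using hG.one
  | insert a s ha ih =>
    rw [sum_insert ha, prod_insert ha]
    exact hG.mul (h a (mem_insert_self _ _)) (ih fun i hi => h i (mem_insert_of_mem hi))

lemma prod' {ι : Type*} (s : Finset ι) (f : ι → ℂ[X][X]) (h : ∀ i ∈ s, G e (f i)) :
    G (s.card * e) (∏ i ∈ s, f i) := by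
  simpa using hG.prod s f (fun _ => e) h

lemma det {n : ℕ} (M : Matrix (Fin n) (Fin n) ℂ[X][X]) (h : ∀ i j, G e (M i j)) :
    G (n * e) M.det := by
  rw [Matrix.det_apply']
  refine hG.sum _ _ fun σ _ => hG.cast_mul _ ?_
  simpa using hG.prod' univ (fun i => M (σ i) i) fun _ _ => h _ _

end Graded

/-- both degrees of a bivariate polynomial are at most `e` -/
def Bd (e : ℕ) (P : ℂ[X][X]) : Prop := P.natDegree ≤ e ∧ ∀ n, (P.coeff n).natDegree ≤ e

namespace Bd

variable {e e' : ℕ} {P Q : ℂ[X][X]}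

lemma const {p : ℂ[X]} (h : p.natDegree ≤ e) : Bd e (C p) :=
  ⟨by simp, fun n => by rw [coeff_C]; split_ifs <;> simp [h]⟩

lemma gr : Graded Bd where
  mono h he := ⟨h.1.trans he, fun n => (h.2 n).trans he⟩
  const a := const (by simp)
  add h h' := ⟨natDegree_add_le_of_degree_le h.1 h'.1, fun n => by
    rw [coeff_add]; exact natDegree_add_le_of_degree_le (h.2 n) (h'.2 n)⟩
  mul h h' := ⟨natDegree_mul_le_of_le h.1 h'.1, fun n => by
    rw [coeff_mul]
    exact natDegree_sum_le_of_forall_le _ _ fun _ _ => natDegree_mul_le_of_le (h.2 _) (h'.2 _)⟩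

lemma mono (h : Bd e P) (he : e ≤ e') : Bd e' P := gr.mono h he

lemma mul (h : Bd e P) (h' : Bd e' Q) : Bd (e + e') (P * Q) := gr.mul h h'

lemma var : Bd 1 X := ⟨by simp, fun n => by rw [coeff_X]; split_ifs <;> simp⟩

lemma deriv (h : Bd e P) : Bd e (derivative P) :=
  ⟨(natDegree_derivative_le _).trans ((Nat.sub_le _ _).trans h.1), fun n => by
    rw [coeff_derivative]
    exact natDegree_mul_le_of_le (n := 0) (h.2 _)
      (by exact_mod_cast (natDegree_natCast (R := ℂ) (n + 1)).le)⟩

lemma swap (h : Bd e P) : Bd e (Bivariate.swap P) := by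
  rw [P.as_sum_range_C_mul_X_pow, map_sum]
  refine gr.sum _ _ fun i hi => ?_
  rw [map_mul, map_pow, Bivariate.swap_C, Bivariate.swap_Y, ← C_pow]
  refine ⟨(natDegree_mul_C_le _ _).trans (natDegree_map_le.trans (h.2 i)), fun n => ?_⟩
  rw [coeff_mul_C, coeff_map]
  exact (natDegree_C_mul_le _ _).trans
    ((natDegree_X_pow_le _).trans ((Nat.lt_succ_iff.1 (mem_range.1 hi)).trans h.1))

lemma eval_le (h : Bd e P) (y : ℂ) : (P.eval (C y)).natDegree ≤ e := by
  rw [eval_eq_sum_range]
  refine natDegree_sum_le_of_forall_le _ _ fun i _ => ?_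
  rw [← C_pow]
  exact (natDegree_mul_C_le _ _).trans (h.2 i)

lemma card_le (h : Bd e P) (h0 : P ≠ 0) (A : Finset ℂ)
    (hA : ∀ x ∈ A, P.map (evalRingHom x) = 0) : A.card ≤ e := by
  refine (card_le_degree_of_subset_roots (p := P.leadingCoeff) fun x hx => ?_).trans (h.2 _)
  rw [mem_roots (leadingCoeff_ne_zero.2 h0)]
  simpa using congrArg (fun p => coeff p P.natDegree) (hA x hx)

lemma pow_le (h : Bd e P) (h0 : P ≠ 0) {x : ℂ} {a : ℕ} (ha : C (X - C x) ^ a ∣ P) : a ≤ e := by
  rw [← C_pow, C_dvd_iff_dvd_coeff] at ha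
  have := natDegree_le_of_dvd (ha P.natDegree) (leadingCoeff_ne_zero.2 h0)
  rw [natDegree_pow, natDegree_X_sub_C, mul_one] at this
  exact this.trans (h.2 _)

end Bd

lemma line_iff {P : ℂ[X][X]} {x : ℂ} : C (X - C x) ∣ P ↔ P.map (evalRingHom x) = 0 := by
  rw [C_dvd_iff_dvd_coeff]
  simp [dvd_iff_isRoot, Polynomial.ext_iff]

lemma line_prime (x : ℂ) : Prime (C (X - C x) : ℂ[X][X]) :=
  Polynomial.prime_C_iff.2 (prime_X_sub_C x)

lemma ev_map {P : ℂ[X][X]} (h0 : P ≠ 0) :
    ∀ᶠ x in Filter.cofinite, P.map (evalRingHom x) ≠ 0 := by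
  filter_upwards [Polynomial.eventually_cofinite_not_isRoot (leadingCoeff_ne_zero.2 h0)] with x hx h
  exact hx (by simpa using congrArg (fun p => coeff p P.natDegree) h)

lemma ev_eval {P : ℂ[X][X]} (h0 : P ≠ 0) : ∀ᶠ y : ℂ in Filter.cofinite, P.eval (C y) ≠ 0 :=
  C_injective.tendsto_cofinite.eventually (Polynomial.eventually_cofinite_not_isRoot h0)

/-- numerators of the iterated logarithmic derivatives -/
noncomputable def PP (F L : ℂ[X][X]) : ℕ → ℂ[X][X]
  | 0 => 1
  | r + 1 => L * PP F L r + F * derivative (PP F L r) - (r : ℤ) * (derivative F * PP F L r)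

lemma Graded.pp {G : ℕ → ℂ[X][X] → Prop} (hG : Graded G) {e : ℕ} {F L : ℂ[X][X]}
    (hF : ∀ a P, G a P → G (e + a) (F * derivative P)) (hF' : G e (derivative F)) (hL : G e L)
    (r : ℕ) : G (r * e) (PP F L r) := by
  induction r with
  | zero => exact hG.one
  | succ r ih =>
    rw [show (r + 1) * e = e + r * e by ring]
    exact hG.sub (hG.add (hG.mul hL ih) (hF _ _ ih)) (hG.cast_mul _ (hG.mul hF' ih))

lemma PP_spec {F L U : ℂ[X][X]} (h : F * derivative U = U * L) (r : ℕ) :
    F ^ r * derivative^[r] U = U * PP F L r := by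
  induction r with
  | zero => simp [PP]
  | succ r ih =>
    have h1 := congrArg derivative ih
    have h2 : F * derivative (F ^ r) = r * derivative F * F ^ r := by
      cases r with
      | zero => simp
      | succ r => rw [derivative_pow_succ]; simp; ring
    rw [derivative_mul, derivative_mul] at h1
    rw [Function.iterate_succ_apply', PP]
    push_cast
    linear_combination F * h1 - derivative^[r] U * h2 - r * derivative F * ih + PP F L r * h

lemma Graded.exists_L {G : ℕ → ℂ[X][X] → Prop} (hG : Graded G) {J : Type*} {d ε : ℕ}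
    {g : ℂ[X][X]} (F : J → ℂ[X][X]) (hd : ∀ j, G d (F j))
    (hd' : ∀ j, G (ε + d) (g * derivative (F j))) (a : J → ℕ) (s : Finset J) :
    ∃ L, G (ε + s.card * d) L ∧
      (g * ∏ j ∈ s, F j) * derivative (∏ j ∈ s, F j ^ a j) = (∏ j ∈ s, F j ^ a j) * L := by
  classical
  induction s using Finset.induction_on with
  | empty => exact ⟨0, hG.zero, by simp⟩
  | insert j s hj ih =>
    obtain ⟨L, h1, h2⟩ := ih
    have h4 : F j * derivative (F j ^ a j) = a j * derivative (F j) * F j ^ a j := by
      cases a j with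
      | zero => simp
      | succ r => rw [derivative_pow_succ]; simp; ring
    refine ⟨((a j : ℤ) : ℂ[X][X]) * (g * derivative (F j) * ∏ j ∈ s, F j) + F j * L, ?_, ?_⟩
    · rw [card_insert_of_notMem hj]
      exact hG.add (hG.cast_mul _ (hG.mono (hG.mul (hd' j) (hG.prod' s F fun _ _ => hd _))
        (le_of_eq (by ring)))) (hG.mono (hG.mul (hd j) h1) (le_of_eq (by ring)))
    · rw [prod_insert hj, prod_insert hj, derivative_mul]
      push_cast
      linear_combination g * (∏ j ∈ s, F j) * (∏ j ∈ s, F j ^ a j) * h4 + F j * F j ^ a j * h2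

lemma ratio {z w : ℂ[X][X]} (hw : w ≠ 0) (h : w * derivative z = derivative w * z) :
    C w.leadingCoeff * z = C (z.coeff w.natDegree) * w := by
  by_contra hne
  set t := C w.leadingCoeff * z - C (z.coeff w.natDegree) * w with ht
  have ht0 : t ≠ 0 := sub_ne_zero.2 hne
  have h1 : w * (X * derivative t) = (X * derivative w) * t := by
    simp only [ht, derivative_sub, derivative_mul, derivative_C]
    linear_combination C w.leadingCoeff * X * h
  have h2 : ∀ p : ℂ[X][X], (X * derivative p).natDegree ≤ p.natDegree ∧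
      (X * derivative p).coeff p.natDegree = p.leadingCoeff * p.natDegree := by
    intro p
    have hc : ∀ n, (X * derivative p).coeff n = p.coeff n * n := by
      intro n
      cases n with
      | zero => simp
      | succ n => rw [coeff_X_mul, coeff_derivative]; simp
    exact ⟨natDegree_le_iff_coeff_eq_zero.2 fun n hn => by
      rw [hc, coeff_eq_zero_of_natDegree_lt hn, zero_mul], hc _⟩
  have h3 := congrArg (fun p => coeff p (w.natDegree + t.natDegree)) h1
  rw [coeff_mul_add_eq_of_natDegree_le le_rfl (h2 t).1,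
    coeff_mul_add_eq_of_natDegree_le (h2 w).1 le_rfl, (h2 t).2, (h2 w).2,
    coeff_natDegree, coeff_natDegree] at h3
  have h4 : (t.natDegree : ℂ[X]) = w.natDegree := by
    refine mul_left_cancel₀ (mul_ne_zero (leadingCoeff_ne_zero.2 hw)
      (leadingCoeff_ne_zero.2 ht0)) ?_
    linear_combination h3
  refine leadingCoeff_ne_zero.2 ht0 ?_
  rw [leadingCoeff, Nat.cast_injective h4]
  simp [ht, mul_comm]

/-- the Wronskian matrix -/
noncomputable def Wr {n : ℕ} (u : Fin n → ℂ[X][X]) : Matrix (Fin n) (Fin n) ℂ[X][X] :=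
  Matrix.of fun r c => derivative^[r] (u c)

lemma relation {n : ℕ} (u : Fin (n + 1) → ℂ[X][X]) (h1 : (Wr fun c => u c.succ).det ≠ 0)
    (h2 : (Wr u).det = 0) :
    ∃ q : ℂ[X], q ≠ 0 ∧ ∃ p : Fin n → ℂ[X], C q * u 0 = ∑ c, C (p c) * u c.succ := by
  obtain ⟨z, hz, hz0⟩ := Matrix.exists_mulVec_eq_zero_iff.2 h2
  have H : ∀ r, r ≤ n → derivative^[r] (u 0) * z 0 +
      ∑ c : Fin n, derivative^[r] (u c.succ) * z c.succ = 0 := fun r hr => by
    simpa [Wr, Matrix.mulVec, dotProduct, Fin.sum_univ_succ] using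
      congrFun hz0 ⟨r, Nat.lt_succ_of_le hr⟩
  have H' : ∀ r, r < n → derivative^[r] (u 0) * derivative (z 0) +
      ∑ c : Fin n, derivative^[r] (u c.succ) * derivative (z c.succ) = 0 := fun r hr => by
    have h3 := congrArg derivative (H r hr.le)
    have h4 := H (r + 1) hr
    simp only [derivative_add, derivative_sum, derivative_mul, sum_add_distrib, derivative_zero,
      Function.iterate_succ_apply'] at h3 h4
    linear_combination h3 - h4
  have hw : z 0 ≠ 0 := by
    intro hw
    have := Matrix.eq_zero_of_mulVec_eq_zero h1 (v := fun c => z c.succ) (funext fun r => by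
      simpa [Wr, Matrix.mulVec, dotProduct, hw] using H r r.2.le)
    exact hz (funext fun c => Fin.cases hw (congrFun this) c)
  have h5 := Matrix.eq_zero_of_mulVec_eq_zero h1
    (v := fun c => z 0 * derivative (z c.succ) - derivative (z 0) * z c.succ) (funext fun r => by
      have h3 := congrArg (z 0 * ·) (H' r r.2)
      have h4 := congrArg (derivative (z 0) * ·) (H r r.2.le)
      simp only [mul_add, mul_sum, mul_zero] at h3 h4
      simp only [Wr, Matrix.mulVec, dotProduct, Matrix.of_apply, Pi.zero_apply, mul_sub,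
        sum_sub_distrib, mul_left_comm _ (z 0), mul_left_comm _ (derivative (z 0))]
      linear_combination h3 - h4)
  refine ⟨_, leadingCoeff_ne_zero.2 hw, fun c => -(z c.succ).coeff (z 0).natDegree,
    mul_left_cancel₀ hw ?_⟩
  have h6 := congrArg (C (z 0).leadingCoeff * ·) (H 0 n.zero_le)
  simp only [Function.iterate_zero, id, mul_add, mul_sum, mul_zero] at h6
  rw [mul_sum, ← sub_eq_zero, ← h6, sub_eq_add_neg, ← sum_neg_distrib]
  congr 1
  · ring
  · refine sum_congr rfl fun c _ => ?_
    have := ratio hw (sub_eq_zero.1 (congrFun h5 c))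
    rw [C_neg]
    linear_combination (-u c.succ) * this

end Pool.Agent.MP_57f271_lc.H19
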